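import Pool.Agent.Helper32.FJL.Pipeline
import Pool.Agent.Helper55.FJL.SLP

set_option autoImplicit false

namespace Pool.Agent.FJL

open Finset Pool.Agent.Helper67.JL

section comp

variable {I J K : Type} [Fintype I] [Fintype J]

/-- product of two matrices -/
def mul2 (B : K → I → ℝ) (A : I → J → ℝ) : K → J → ℝ := fun k j => ∑ i, B k i * A i j

theorem app_mul2 (B : K → I → ℝ) (A : I → J → ℝ) (x : J → ℝ) :
    app (mul2 B A) x = app B (app A x) := by
  funext k
  simp only [app, mul2, sum_mul, mul_sum]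
  rw [sum_comm]
  apply sum_congr rfl
  intro i _
  apply sum_congr rfl
  intro j _
  ring

theorem SLP.mul2 {t t' : ℕ} {A : I → J → ℝ} {B : K → I → ℝ} (hB : SLP t' B) (hA : SLP t A) :
    SLP (t + t') (mul2 B A) := SLP.comp hA hB

theorem app_smul (A : I → J → ℝ) (c : ℝ) (x : J → ℝ) :
    app A (fun j => c * x j) = fun i => c * app A x i := by
  funext i
  simp only [app, mul_sum]
  apply sum_congr rfl
  intro j _
  ring

end comp

section pieces

variable {I : Type} [Fintype I] [DecidableEq I]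

/-- diagonal matrix of signs -/
noncomputable def diagM (s : I → Bool) : I → I → ℝ := fun i j => if j = i then sg (s i) else 0

theorem app_diagM (s : I → Bool) (x : I → ℝ) : app (diagM s) x = flip s x := by
  funext i
  simp [app, diagM, flip]

theorem SLP_diagM [Nonempty I] (s : I → Bool) : SLP (Fintype.card I) (diagM s) := by
  have := SLP.sparse' 1 le_rfl (diagM s) (fun i => {i}) (fun i => by simp)
    (fun i j hj => by
      simp only [mem_singleton] at hj
      simp [diagM, hj])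
  simpa using this

/-- padding matrix -/
noncomputable def padM {d : ℕ} (ι : Fin d → I) : I → Fin d → ℝ := fun i j => if ι j = i then 1 else 0

theorem SLP_padM {d : ℕ} (hd : 1 ≤ d) (ι : Fin d → I) (hι : Function.Injective ι) :
    SLP (Fintype.card I) (padM ι) := by
  have : Nonempty (Fin d) := ⟨⟨0, hd⟩⟩
  have := SLP.sparse' 1 le_rfl (padM ι) (fun i => univ.filter fun j => ι j = i)
    (fun i => by
      rw [card_le_one]
      intro a ha b hb
      simp only [mem_filter, mem_univ, true_and] at ha hb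
      exact hι (ha.trans hb.symm))
    (fun i j hj => by
      simp only [mem_filter, mem_univ, true_and] at hj
      simp [padM, hj])
  simpa using this

theorem nsq_padM {d : ℕ} (ι : Fin d → I) (hι : Function.Injective ι) (x : Fin d → ℝ) :
    nsq (app (padM ι) x) = nsq x := by
  unfold nsq app padM
  have h : ∀ i, (∑ j, (if ι j = i then (1 : ℝ) else 0) * x j) ^ 2 =
      ∑ j, if ι j = i then x j ^ 2 else 0 := by
    intro i
    by_cases hi : ∃ j, ι j = i
    · obtain ⟨j, rfl⟩ := hi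
      have h1 : ∀ j', (ι j' = ι j) = (j' = j) := fun j' => propext ⟨fun h => hι h, fun h => by rw [h]⟩
      simp only [h1]
      simp
    · push Not at hi
      simp [hi]
  simp_rw [h]
  rw [sum_comm]
  apply sum_congr rfl
  intro j _
  simp

variable {K : Type} [Fintype K] [DecidableEq K]

theorem SLP_Smat [Nonempty I] (bkt : I → K) (β : ℕ) (hβ1 : 1 ≤ β)
    (hβ : ∀ κ, (univ.filter fun i => bkt i = κ).card = β) (σ : I → Bool) :
    SLP (Fintype.card I) (Smat bkt σ) := by
  rw [card_of_fibers bkt β hβ]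
  exact SLP.sparse' β hβ1 (Smat bkt σ) (fun κ => univ.filter fun i => bkt i = κ)
    (fun κ => (hβ κ).le)
    (fun κ i hi => by
      simp only [mem_filter, mem_univ, true_and] at hi
      simp [Smat, hi])

theorem SLP_Rmat [Nonempty I] {B : Type} [DecidableEq B] (blk : I → B) (p : ℕ) (hp1 : 1 ≤ p)
    (hp : ∀ b, (univ.filter fun i => blk i = b).card = p) (ρ : I × I → Bool) :
    SLP (Fintype.card I * p) (Rmat blk p ρ) := by
  refine SLP.sparse' p hp1 (Rmat blk p ρ) (fun i => univ.filter fun j => blk i = blk j)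
    (fun i => ?_) (fun i j hj => ?_)
  · rw [← hp (blk i)]
    apply le_of_eq
    congr 1
    ext j
    simp [eq_comm]
  · simp only [mem_filter, mem_univ, true_and] at hj
    simp [Rmat, hj]

/-- the matrix `H D₀ H` -/
noncomputable def Umat (H : I → I → ℝ) (δ : I → Bool) : I → I → ℝ :=
  fun i j => ∑ l, H i l * (sg (δ l) * H l j)

theorem Umat_eq (H : I → I → ℝ) (δ : I → Bool) : Umat H δ = mul2 H (mul2 (diagM δ) H) := by
  funext i j
  unfold Umat mul2 diagM
  apply sum_congr rfl
  intro l _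
  simp

theorem SLP_Umat [Nonempty I] {t : ℕ} (H : I → I → ℝ) (hH : SLP t H) (δ : I → Bool) :
    SLP (2 * t + Fintype.card I) (Umat H δ) := by
  rw [Umat_eq]
  have := SLP.mul2 hH (SLP.mul2 (SLP_diagM δ) hH)
  convert this using 1
  ring

theorem app_Umat (H : I → I → ℝ) (δ : I → Bool) (x : I → ℝ) :
    app (Umat H δ) x = app H (flip δ (app H x)) := by
  rw [Umat_eq, app_mul2, app_mul2, app_diagM]

theorem Umat_symm (H : I → I → ℝ) (hs : ∀ i j, H i j = H j i) (δ : I → Bool) (i j : I) :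
    Umat H δ i j = Umat H δ j i := by
  unfold Umat
  apply sum_congr rfl
  intro l _
  rw [hs i l, hs l j]
  ring

theorem Umat_iso [Nonempty I] (H : I → I → ℝ)
    (hH2 : ∀ x : I → ℝ, ∑ i, (∑ j, H i j * x j) ^ 2 = ∑ j, x j ^ 2) (δ : I → Bool) (x : I → ℝ) :
    ∑ i, (∑ j, Umat H δ i j * x j) ^ 2 = ∑ j, x j ^ 2 := by
  have h1 : ∑ i, (∑ j, Umat H δ i j * x j) ^ 2 = nsq (app (Umat H δ) x) := rfl
  have h2 : ∀ y : I → ℝ, nsq (app H y) = nsq y := hH2
  rw [h1, app_Umat, h2, nsq_flip, h2]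
  rfl

/-- The matrix of the transform. -/
noncomputable def fullM {B : Type} [DecidableEq B] {d : ℕ} (H : I → I → ℝ) (δ : I → Bool)
    (ι : Fin d → I) (blk : I → B) (p : ℕ) (bkt : I → K) (s₁ s₂ σ : I → Bool)
    (ρ : I × I → Bool) : K → Fin d → ℝ :=
  mul2 (Smat bkt σ) (mul2 (Umat H δ) (mul2 (Rmat blk p ρ) (mul2 H (mul2 (diagM s₂)
    (mul2 (Umat H δ) (mul2 (diagM s₁) (padM ι)))))))

theorem app_fullM {B : Type} [DecidableEq B] {d : ℕ} (H : I → I → ℝ) (δ : I → Bool)
    (ι : Fin d → I) (blk : I → B) (p : ℕ) (bkt : I → K) (s₁ s₂ σ : I → Bool)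
    (ρ : I × I → Bool) (x : Fin d → ℝ) :
    app (fullM H δ ι blk p bkt s₁ s₂ σ ρ) x =
      out H (Umat H δ) blk p bkt s₁ s₂ σ ρ (app (padM ι) x) := by
  unfold fullM out
  simp only [app_mul2, app_diagM]

theorem SLP_fullM [Nonempty I] {B : Type} [DecidableEq B] {d r : ℕ} (hd : 1 ≤ d)
    (H : I → I → ℝ) (hcard : Fintype.card I = 2 ^ r) (hH : SLP (2 * r * 2 ^ r) H)
    (δ : I → Bool) (ι : Fin d → I) (hι : Function.Injective ι) (blk : I → B) (p : ℕ)
    (hp1 : 1 ≤ p) (hp : ∀ b, (univ.filter fun i => blk i = b).card = p)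
    (bkt : I → K) (β : ℕ) (hβ1 : 1 ≤ β)
    (hβ : ∀ κ, (univ.filter fun i => bkt i = κ).card = β) (s₁ s₂ σ : I → Bool)
    (ρ : I × I → Bool) :
    SLP (2 ^ r * (10 * r + p + 6)) (fullM H δ ι blk p bkt s₁ s₂ σ ρ) := by
  have h0 := SLP_padM hd ι hι
  have h1 := SLP.mul2 (SLP_diagM s₁) h0
  have h2 := SLP.mul2 (SLP_Umat H hH δ) h1
  have h3 := SLP.mul2 (SLP_diagM s₂) h2
  have h4 := SLP.mul2 hH h3
  have h5 := SLP.mul2 (SLP_Rmat blk p hp1 hp ρ) h4
  have h6 := SLP.mul2 (SLP_Umat H hH δ) h5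
  have h7 := SLP.mul2 (SLP_Smat bkt β hβ1 hβ σ) h6
  rw [hcard] at h7
  have ht : 2 ^ r * (10 * r + p + 6) = 2 ^ r + 2 ^ r + (2 * (2 * r * 2 ^ r) + 2 ^ r) + 2 ^ r +
      2 * r * 2 ^ r + 2 ^ r * p + (2 * (2 * r * 2 ^ r) + 2 ^ r) + 2 ^ r := by ring
  rw [ht]
  exact h7

end pieces

theorem exists_fibers {I : Type} [Fintype I] (b p : ℕ) (h : Fintype.card I = b * p) :
    ∃ blk : I → Fin b, ∀ c, (univ.filter fun i => blk i = c).card = p := by
  classical
  let e : I ≃ Fin b × Fin p := (Fintype.equivFinOfCardEq h).trans finProdFinEquiv.symm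
  refine ⟨fun i => (e i).1, fun c => ?_⟩
  have hinj : Function.Injective (fun q : Fin p => e.symm (c, q)) := by
    intro a b hab
    have := e.symm.injective hab
    exact (Prod.mk.inj this).2
  have : (univ.filter fun i => (e i).1 = c) =
      (univ : Finset (Fin p)).image (fun q => e.symm (c, q)) := by
    ext i
    simp only [mem_filter, mem_univ, true_and, mem_image]
    constructor
    · intro hi
      refine ⟨(e i).2, ?_⟩
      rw [← hi]
      simp
    · rintro ⟨q, rfl⟩
      simp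
  rw [this, card_image_of_injective _ hinj, card_univ, Fintype.card_fin]

end Pool.Agent.FJL
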