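import Pool.Agent.Helper67.JL.Chaos

set_option autoImplicit false

/-!
Common definitions for the fast Johnson–Lindenstrauss transform (dense case of MP_fe497f_lc).
The finite probability calculus (`ex`, `pr`, `sg`) is in `Pool.Agent.Helper67.JL.Signs`.
-/

namespace Pool.Agent.FJL

open Finset Pool.Agent.Helper67.JL

/-- Squared Euclidean norm. -/
def nsq {I : Type} [Fintype I] (x : I → ℝ) : ℝ := ∑ i, x i ^ 2

/-- Matrix times vector. -/
def app {I J : Type} [Fintype J] (A : I → J → ℝ) (x : J → ℝ) : I → ℝ := fun i => ∑ j, A i j * x j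

/-- Every submatrix of `U` with rows `Q` and columns `T` has squared operator norm at most
`L * max |Q| |T| / m`. -/
def Spread {I : Type} [Fintype I] (L : ℝ) (U : I → I → ℝ) : Prop :=
  ∀ (Q T : Finset I) (a : I → ℝ),
    ∑ i ∈ Q, (∑ j ∈ T, U i j * a j) ^ 2 ≤
      L * max (Q.card : ℝ) (T.card : ℝ) / (Fintype.card I : ℝ) * ∑ j ∈ T, a j ^ 2

/-- Block-diagonal random sign matrix with blocks given by `blk` (block size `p`). -/
noncomputable def Rmat {I B : Type} [DecidableEq B] (blk : I → B) (p : ℕ) (ρ : I × I → Bool) :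
    I → I → ℝ := fun i j => if blk i = blk j then sg (ρ (i, j)) / Real.sqrt p else 0

/-- Signed bucket sums. -/
noncomputable def Smat {I K : Type} [DecidableEq K] (bkt : I → K) (σ : I → Bool) :
    K → I → ℝ := fun κ i => if bkt i = κ then sg (σ i) else 0

/-- The blocks whose mass exceeds `12 p / m`. -/
noncomputable def badSet {I B : Type} [Fintype I] [Fintype B] [DecidableEq B] (blk : I → B)
    (p : ℕ) (y : I → ℝ) : Finset B := by
  classical
  exact univ.filter fun b => 12 * (p : ℝ) / (Fintype.card I : ℝ) <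
    ∑ i ∈ univ.filter (fun i => blk i = b), y i ^ 2

theorem mem_badSet {I B : Type} [Fintype I] [Fintype B] [DecidableEq B] (blk : I → B)
    (p : ℕ) (y : I → ℝ) (b : B) : b ∈ badSet blk p y ↔
      12 * (p : ℝ) / (Fintype.card I : ℝ) < ∑ i ∈ univ.filter (fun i => blk i = b), y i ^ 2 := by
  classical
  simp [badSet]

/-- The matrix `A` (rows `I`, columns `J`) is evaluated by a linear straight-line program with
`t` instructions: instruction number `s` forms `a s * X + b s * Y`, where each of `X`, `Y` is an
input `x j` (address `Sum.inl j`) or the result of an earlier instruction `n < s`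
(address `Sum.inr n`); every output is an input or the result of an instruction.
The program is chosen before the input `x`. -/
def SLP {I J : Type} [Fintype J] (t : ℕ) (A : I → J → ℝ) : Prop :=
  ∃ (a b : ℕ → ℝ) (f g : ℕ → J ⊕ ℕ) (out : I → J ⊕ ℕ),
    (∀ s < t, (∀ n, f s = Sum.inr n → n < s) ∧ (∀ n, g s = Sum.inr n → n < s)) ∧
    (∀ i n, out i = Sum.inr n → n < t) ∧
    ∀ x : J → ℝ, ∃ v : ℕ → ℝ,
      (∀ s < t, v s = a s * Sum.elim x v (f s) + b s * Sum.elim x v (g s)) ∧
      ∀ i, Sum.elim x v (out i) = ∑ j, A i j * x j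

end Pool.Agent.FJL
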