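import Pool.Agent.Helper32.FJL.Compose
import Pool.Agent.Helper35.FJL.Params
import Pool.Agent.Helper54.FJL.Spread
import Pool.Agent.Helper55.FJL.Hadamard
import Pool.Agent.Helper15.FJL.DenseSign

set_option autoImplicit false

namespace Pool.Agent.FJL

open Finset Pool.Agent.Helper67.JL

theorem Spread.mono {I : Type} [Fintype I] {L L' : ℝ} {U : I → I → ℝ} (h : Spread L U)
    (hL : L ≤ L') : Spread L' U := by
  intro Q T a
  refine (h Q T a).trans ?_
  apply mul_le_mul_of_nonneg_right _ (sum_nonneg fun _ _ => sq_nonneg _)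
  apply div_le_div_of_nonneg_right _ (Nat.cast_nonneg _)
  apply mul_le_mul_of_nonneg_right hL
  exact le_max_of_le_left (Nat.cast_nonneg _)

/-- JL event for a matrix in our notation -/
def JLok {K J : Type} [Fintype K] [Fintype J] (ε : ℝ) (A : K → J → ℝ) (x : J → ℝ) : Prop :=
  (1 - ε) * Real.sqrt (nsq x) ≤ Real.sqrt (nsq (app A x)) ∧
    Real.sqrt (nsq (app A x)) ≤ (1 + ε) * Real.sqrt (nsq x)

theorem JLok_of_unit {K J : Type} [Fintype K] [Fintype J] (ε : ℝ) (hε : 0 < ε) (hε1 : ε < 1)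
    (A : K → J → ℝ) (x : J → ℝ) (hx : 0 < nsq x)
    (h : (1 - ε) ^ 2 ≤ nsq (app A fun j => (Real.sqrt (nsq x))⁻¹ * x j) ∧
      nsq (app A fun j => (Real.sqrt (nsq x))⁻¹ * x j) ≤ (1 + ε) ^ 2) : JLok ε A x := by
  have hs : 0 < Real.sqrt (nsq x) := Real.sqrt_pos.mpr hx
  have h1 : nsq (app A fun j => (Real.sqrt (nsq x))⁻¹ * x j) = nsq (app A x) / nsq x := by
    rw [app_smul]
    unfold nsq
    simp only [mul_pow]
    rw [← mul_sum, inv_pow, Real.sq_sqrt (by simpa [nsq] using hx.le), div_eq_inv_mul]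
  rw [h1, le_div_iff₀ hx, div_le_iff₀ hx] at h
  constructor
  · rw [← Real.sqrt_sq (show 0 ≤ 1 - ε by linarith), ← Real.sqrt_mul (sq_nonneg _)]
    exact Real.sqrt_le_sqrt h.1
  · rw [← Real.sqrt_sq (show 0 ≤ 1 + ε by linarith), ← Real.sqrt_mul (sq_nonneg _)]
    exact Real.sqrt_le_sqrt h.2

theorem JLok_zero {K J : Type} [Fintype K] [Fintype J] (ε : ℝ)
    (A : K → J → ℝ) (x : J → ℝ) (hx : nsq x = 0) : JLok ε A x := by
  have hx0 : ∀ j, x j = 0 := by
    intro j
    have := (sum_eq_zero_iff_of_nonneg (fun i _ => sq_nonneg (x i))).mp hx j (mem_univ j)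
    exact pow_eq_zero_iff (two_ne_zero) |>.mp this
  have h1 : nsq (app A x) = 0 := by
    simp [nsq, app, hx0]
  unfold JLok
  rw [hx, h1]
  simp

theorem nsq_unit {J : Type} [Fintype J] (x : J → ℝ) (hx : 0 < nsq x) :
    nsq (fun j => (Real.sqrt (nsq x))⁻¹ * x j) = 1 := by
  unfold nsq
  simp only [mul_pow]
  rw [← mul_sum, inv_pow, Real.sq_sqrt (by simpa [nsq] using hx.le)]
  exact inv_mul_cancel₀ hx.ne'

/-- The main theorem in the internal notation. -/
theorem main : ∃ (C : ℝ) (c : ℕ), 0 < C ∧ ∀ (d : ℕ) (ε P : ℝ), 1 ≤ d → 0 < ε → ε < 1 → 0 < P →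
    P ≤ 1 / 2 → ∃ (k : ℕ) (Ω : Type) (_ : Fintype Ω) (_ : Nonempty Ω) (A : Ω → Fin k → Fin d → ℝ),
      (k : ℝ) ≤ C * Real.log (1 / P) / ε ^ 2 ∧
      (∀ x : Fin d → ℝ, pr (fun ω => ¬ JLok ε (A ω) x) ≤ P) ∧
      ∀ ω, ∃ t : ℕ, (t : ℝ) ≤ C * (d + k) * (1 + Real.log d) ^ c ∧ SLP t (A ω) := by
  classical
  obtain ⟨C₀, hC₀, hspread⟩ := exists_spread
  obtain ⟨C₁, c, hC₁, hpar⟩ := fjl_params C₀ hC₀
  refine ⟨C₁ + 163840, c, by linarith, ?_⟩
  intro d ε P hd hε hε1 hP hP2
  set u : ℝ := Real.log (16 / P) with hu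
  have hlog2 : 0.69 < Real.log 2 := by have := Real.log_two_gt_d9; linarith
  have hlogP : Real.log 2 ≤ Real.log (1 / P) := by
    apply Real.log_le_log (by norm_num)
    rw [le_div_iff₀ hP]
    linarith
  have hlogP0 : 0 < Real.log (1 / P) := by linarith
  have hueq : u = 4 * Real.log 2 + Real.log (1 / P) := by
    rw [hu, show (16 : ℝ) / P = 2 ^ 4 * (1 / P) by ring, Real.log_mul (by norm_num) (by positivity),
      Real.log_pow]
    norm_num
  have hu1 : 1 ≤ u := by rw [hueq]; linarith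
  have hu5 : u ≤ 5 * Real.log (1 / P) := by rw [hueq]; linarith
  have hexp : Real.exp (-u) = P / 16 := by
    rw [hu, Real.exp_neg, Real.exp_log (by positivity), inv_div]
  have hε2 : 0 < ε ^ 2 := by positivity
  -- the power of two
  have hbig : 1 ≤ 16384 * u / ε ^ 2 := by
    rw [le_div_iff₀ hε2]
    nlinarith
  obtain ⟨κ, hκ1, hκ2⟩ : ∃ κ : ℕ, 16384 * u / ε ^ 2 ≤ 2 ^ κ ∧ (2 : ℝ) ^ κ ≤ 2 * (16384 * u / ε ^ 2) := by
    obtain ⟨n, hn1, hn2⟩ := exists_nat_pow_near hbig (by norm_num : (1 : ℝ) < 2)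
    refine ⟨n + 1, hn2.le, ?_⟩
    rw [pow_succ]
    linarith
  have hk1 : 16384 * u ≤ ε ^ 2 * 2 ^ κ := by
    rw [div_le_iff₀ hε2] at hκ1
    linarith
  have hk2 : (2 : ℝ) ^ κ ≤ (C₁ + 163840) * Real.log (1 / P) / ε ^ 2 := by
    refine hκ2.trans ?_
    rw [← mul_div_assoc]
    apply div_le_div_of_nonneg_right _ hε2.le
    nlinarith
  have hl1 : (1 : ℝ) ≤ 1 + Real.log d := by
    have : 0 ≤ Real.log d := Real.log_nonneg (by exact_mod_cast hd)
    linarith
  have hlc : (1 : ℝ) ≤ (1 + Real.log d) ^ c := one_le_pow₀ hl1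
  by_cases hcase : (d : ℝ) ≤ 2 ^ κ
  · -- identity
    refine ⟨d, Unit, inferInstance, inferInstance, fun _ i j => if i = j then 1 else 0,
      hcase.trans hk2, ?_, ?_⟩
    · intro x
      have : pr (fun _ : Unit => ¬ JLok ε (fun i j : Fin d => if i = j then (1 : ℝ) else 0) x) ≤
          pr (fun _ : Unit => False) := by
        apply pr_mono
        intro _ h
        apply h
        have h1 : app (fun i j : Fin d => if i = j then (1 : ℝ) else 0) x = x := by
          funext i
          simp [app]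
        unfold JLok
        rw [h1]
        have := Real.sqrt_nonneg (nsq x)
        constructor <;> nlinarith
      rw [pr_false] at this
      linarith
    · intro _
      refine ⟨0, ?_, ?_⟩
      · rw [Nat.cast_zero]
        exact mul_nonneg (mul_nonneg (by linarith) (by positivity)) (le_trans zero_le_one hlc)
      refine ⟨fun _ => 0, fun _ => 0, fun _ => Sum.inl ⟨0, hd⟩, fun _ => Sum.inl ⟨0, hd⟩,
        fun i => Sum.inl i, fun s hs => absurd hs (Nat.not_lt_zero s), ?_, ?_⟩
      · intro i n hn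
        cases hn
      · intro x
        refine ⟨fun _ => 0, fun s hs => absurd hs (Nat.not_lt_zero s), ?_⟩
        intro i
        simp
  push Not at hcase
  rcases hpar d ε u κ hd hε hε1 hu1 hk1 hcase with hsmall | ⟨r, a, L, L', hκr, har, hdr, hL1, hL, hL'1,
    hL', hpa, hbad, hcost⟩
  · -- dense sign matrix
    have hkpos : 1 ≤ 2 ^ κ := Nat.one_le_two_pow
    refine ⟨2 ^ κ, Fin (2 ^ κ) × Fin d → Bool, inferInstance, inferInstance,
      fun ρ i j => sg (ρ (i, j)) / Real.sqrt ((2 ^ κ : ℕ) : ℝ), by push_cast; exact hk2, ?_, ?_⟩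
    · intro x
      have h := dense_sign d (2 ^ κ) hd hkpos x ε hε hε1
      refine (le_of_eq ?_).trans (h.trans ?_)
      · rfl
      · have h2 : Real.exp (-(ε ^ 2 * ((2 ^ κ : ℕ) : ℝ) / 16)) ≤ Real.exp (-u) := by
          apply Real.exp_le_exp.mpr
          push_cast
          linarith
        rw [hexp] at h2
        linarith
    · intro ρ
      have : Nonempty (Fin d) := ⟨⟨0, hd⟩⟩
      refine ⟨2 ^ κ * d, ?_, ?_⟩
      · push_cast
        have hd0 : (0 : ℝ) ≤ d := Nat.cast_nonneg _
        have h1 : (2 : ℝ) ^ κ * d ≤ C₁ * (1 + Real.log d) ^ c * d :=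
          mul_le_mul_of_nonneg_right hsmall hd0
        have h2 : C₁ * (1 + Real.log d) ^ c * d ≤
            (C₁ + 163840) * (d + 2 ^ κ) * (1 + Real.log d) ^ c := by
          have h3 : C₁ * d ≤ (C₁ + 163840) * (d + 2 ^ κ) := by
            apply mul_le_mul (by linarith) _ hd0 (by linarith)
            have : (0 : ℝ) ≤ 2 ^ κ := by positivity
            linarith
          have h4 := mul_le_mul_of_nonneg_right h3 (le_trans zero_le_one hlc)
          linarith
        linarith
      · have := SLP.sparse' d hd (fun (i : Fin (2 ^ κ)) (j : Fin d) =>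
          sg (ρ (i, j)) / Real.sqrt ((2 ^ κ : ℕ) : ℝ)) (fun _ => univ) (fun i => by simp)
          (fun i j hj => absurd (mem_univ j) hj)
        simpa using this
  · -- the transform
    obtain ⟨H, hH1, hHs, hH2, -, hHc⟩ := exists_hadamard r
    have hcard : Fintype.card (Fin r → Bool) = 2 ^ r := by simp
    have hcardR : (Fintype.card (Fin r → Bool) : ℝ) = 2 ^ r := by
      rw [hcard]
      push_cast
      rfl
    obtain ⟨δ, hδ⟩ := hspread (Fin r → Bool) H
      (fun i j => by rw [hH1, hcardR]) hHs (fun x => (hH2 x).le)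
    rw [hcardR] at hδ
    have hU : Spread L (Umat H δ) := Spread.mono hδ hL
    obtain ⟨blk, hblk⟩ := exists_fibers (I := Fin r → Bool) (2 ^ (r - a)) (2 ^ a)
      (by rw [hcard, ← pow_add, Nat.sub_add_cancel har])
    obtain ⟨bkt, hbkt⟩ := exists_fibers (I := Fin r → Bool) (2 ^ κ) (2 ^ (r - κ))
      (by rw [hcard, ← pow_add, Nat.add_sub_cancel' hκr])
    obtain ⟨ι, hι⟩ : ∃ ι : Fin d → (Fin r → Bool), Function.Injective ι := by
      have : Fintype.card (Fin d) ≤ Fintype.card (Fin r → Bool) := by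
        rw [hcard, Fintype.card_fin]
        exact_mod_cast hdr
      obtain ⟨f⟩ := Function.Embedding.nonempty_of_card_le this
      exact ⟨f, f.injective⟩
    refine ⟨2 ^ κ, ((Fin r → Bool) → Bool) × ((Fin r → Bool) → Bool) × ((Fin r → Bool) → Bool) ×
      ((Fin r → Bool) × (Fin r → Bool) → Bool), inferInstance, inferInstance,
      fun ω => fullM H δ ι blk (2 ^ a) bkt ω.1 ω.2.1 ω.2.2.1 ω.2.2.2,
      by push_cast; exact hk2, ?_, ?_⟩
    · intro x
      rcases (nsq_nonneg x).eq_or_lt with hx | hx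
      · have : pr (fun ω : ((Fin r → Bool) → Bool) × ((Fin r → Bool) → Bool) ×
            ((Fin r → Bool) → Bool) × ((Fin r → Bool) × (Fin r → Bool) → Bool) =>
            ¬ JLok ε (fullM H δ ι blk (2 ^ a) bkt ω.1 ω.2.1 ω.2.2.1 ω.2.2.2) x) ≤
            pr (fun _ : ((Fin r → Bool) → Bool) × ((Fin r → Bool) → Bool) ×
            ((Fin r → Bool) → Bool) × ((Fin r → Bool) × (Fin r → Bool) → Bool) => False) := by
          apply pr_mono
          intro ω h
          exact h (JLok_zero ε _ x hx.symm)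
        rw [pr_false] at this
        linarith
      · have hp := pipeline H (Umat H δ) (fun i j => by rw [hH1, hcardR]) hH2
          (Umat_iso H hH2 δ)
          (fun x => by
            rw [← Umat_iso H hH2 δ x]
            apply sum_congr rfl
            intro i _
            congr 1
            apply sum_congr rfl
            intro j _
            rw [Umat_symm H hHs δ j i])
          L hL1 hU blk (2 ^ a) Nat.one_le_two_pow hblk bkt (2 ^ (r - κ)) Nat.one_le_two_pow hbkt
          u ε L' hu1 hε hε1 hL'1 (by rw [hcardR]; exact hL') (by rw [hcardR]; push_cast; exact hpa)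
          (by rw [Fintype.card_fin]; push_cast; exact hk1)
          (by rw [hcardR, Fintype.card_fin]; push_cast; exact hbad)
          (app (padM ι) fun j => (Real.sqrt (nsq x))⁻¹ * x j)
          (by rw [nsq_padM ι hι, nsq_unit x hx])
        refine (pr_mono ?_).trans (hp.trans ?_)
        · intro ω hω hcon
          apply hω
          apply JLok_of_unit ε hε hε1 _ x hx
          rw [app_fullM]
          exact hcon
        · rw [hexp]
          linarith
    · intro ω
      refine ⟨2 ^ r * (10 * r + 2 ^ a + 6), ?_, ?_⟩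
      · push_cast
        refine hcost.trans ?_
        have hd0 : (0 : ℝ) ≤ d := Nat.cast_nonneg _
        have h3 : C₁ * d ≤ (C₁ + 163840) * (d + 2 ^ κ) := by
          apply mul_le_mul (by linarith) _ hd0 (by linarith)
          have : (0 : ℝ) ≤ 2 ^ κ := by positivity
          linarith
        exact mul_le_mul_of_nonneg_right h3 (le_trans zero_le_one hlc)
      · exact SLP_fullM hd H hcard hHc δ ι hι blk (2 ^ a) Nat.one_le_two_pow hblk bkt
          (2 ^ (r - κ)) Nat.one_le_two_pow hbkt _ _ _ _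

end Pool.Agent.FJL
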