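import Pool.Agent.Helper32.FJL.Defs
import Pool.Agent.Helper35.FJL.Tails
import Pool.Agent.Helper36.FJL.Step1
import Pool.Agent.Helper91.FJL.StepTwo
import Pool.Agent.Helper88.FJL.BadPart
import Pool.Agent.Helper58.FJL.Good

set_option autoImplicit false

namespace Pool.Agent.FJL

open Finset Pool.Agent.Helper67.JL

section basics

variable {I J K : Type} [Fintype I] [Fintype J] [Fintype K]

theorem nsq_nonneg (x : I → ℝ) : 0 ≤ nsq x := sum_nonneg fun _ _ => sq_nonneg _

theorem app_add (A : I → J → ℝ) (x y : J → ℝ) (i : I) :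
    app A (fun j => x j + y j) i = app A x i + app A y i := by
  simp only [app, mul_add, sum_add_distrib]

theorem pr_prod_le_right {Ω Ω' : Type} [Fintype Ω] [Fintype Ω'] (q : Ω → Ω' → Prop) (b : ℝ)
    (hb : 0 ≤ b) (h : ∀ ω, pr (q ω) ≤ b) : pr (fun w : Ω × Ω' => q w.1 w.2) ≤ b := by
  have := pr_prod_or_le (fun _ : Ω => False) q 0 b hb (by rw [pr_false]) (fun ω _ => h ω)
  simpa using this

theorem pr_swap {Ω Ω' : Type} [Fintype Ω] [Fintype Ω'] (q : Ω → Ω' → Prop) :
    pr (fun w : Ω × Ω' => q w.1 w.2) = pr (fun w : Ω' × Ω => q w.2 w.1) := by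
  classical
  rw [pr_def, pr_def, ex_equiv (Equiv.prodComm Ω' Ω)]
  rfl

theorem pr_prod_le_left {Ω Ω' : Type} [Fintype Ω] [Fintype Ω'] (q : Ω → Ω' → Prop) (b : ℝ)
    (hb : 0 ≤ b) (h : ∀ ω', pr (fun ω => q ω ω') ≤ b) : pr (fun w : Ω × Ω' => q w.1 w.2) ≤ b := by
  rw [pr_swap]
  exact pr_prod_le_right (fun ω' ω => q ω ω') b hb h

theorem pr_congr {Ω : Type} [Fintype Ω] {p q : Ω → Prop} (h : ∀ ω, p ω ↔ q ω) : pr p = pr q := by
  congr 1
  funext ω
  exact propext (h ω)

/-- perturbation of a squared norm, lower bound -/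
theorem nsq_add_lower (x y : I → ℝ) (e : ℝ) (he : 0 < e) :
    (1 - e) * nsq x - (1 / e) * nsq y ≤ nsq (fun i => x i + y i) := by
  unfold nsq
  rw [mul_sum, mul_sum, ← sum_sub_distrib]
  apply sum_le_sum
  intro i _
  have h : 0 ≤ e * (x i + 1 / e * y i) ^ 2 := by positivity
  have h2 : e * (x i + 1 / e * y i) ^ 2 = e * x i ^ 2 + 2 * x i * y i + 1 / e * y i ^ 2 := by
    field_simp
    ring
  nlinarith [sq_nonneg (y i)]

/-- perturbation of a squared norm, upper bound -/
theorem nsq_add_upper (x y : I → ℝ) (e : ℝ) (he : 0 < e) :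
    nsq (fun i => x i + y i) ≤ (1 + e) * nsq x + (1 + 1 / e) * nsq y := by
  unfold nsq
  rw [mul_sum, mul_sum, ← sum_add_distrib]
  apply sum_le_sum
  intro i _
  have h : 0 ≤ e * (x i - 1 / e * y i) ^ 2 := by positivity
  have h2 : e * (x i - 1 / e * y i) ^ 2 = e * x i ^ 2 - 2 * x i * y i + 1 / e * y i ^ 2 := by
    field_simp
    ring
  nlinarith [sq_nonneg (y i)]

end basics

section blocks

variable {I B : Type} [Fintype I] [DecidableEq I] [DecidableEq B]

theorem sum_blocks (blk : I → B) (p : ℕ)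
    (hp : ∀ i, (univ.filter fun j => blk i = blk j).card = p) (f : I → ℝ) :
    ∑ i, ∑ j ∈ univ.filter (fun j => blk i = blk j), f j = p * ∑ j, f j := by
  have h : ∀ i, ∑ j ∈ univ.filter (fun j => blk i = blk j), f j =
      ∑ j, if blk i = blk j then f j else 0 := by
    intro i
    rw [sum_filter]
  simp_rw [h]
  rw [sum_comm, mul_sum]
  apply sum_congr rfl
  intro j _
  rw [← sum_filter, sum_const, nsmul_eq_mul]
  congr 2
  rw [← hp j]
  congr 1
  ext i
  simp [eq_comm]

/-- the block matrix increases squared norms by at most a factor `p` -/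
theorem Rmat_nsq_le (blk : I → B) (p : ℕ) (hp1 : 1 ≤ p)
    (hp : ∀ i, (univ.filter fun j => blk i = blk j).card = p) (ρ : I × I → Bool) (y : I → ℝ) :
    nsq (app (Rmat blk p ρ) y) ≤ p * nsq y := by
  have hpr : (0 : ℝ) < p := by exact_mod_cast hp1
  unfold nsq
  rw [← sum_blocks blk p hp]
  apply sum_le_sum
  intro i _
  have h1 : app (Rmat blk p ρ) y i =
      ∑ j ∈ univ.filter (fun j => blk i = blk j), (sg (ρ (i, j)) / Real.sqrt p) * y j := by
    unfold app Rmat
    rw [sum_filter]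
    apply sum_congr rfl
    intro j _
    split_ifs <;> simp
  rw [h1]
  refine (sum_mul_sq_le_sq_mul_sq _ _ _).trans ?_
  have h2 : ∑ j ∈ univ.filter (fun j => blk i = blk j), (sg (ρ (i, j)) / Real.sqrt p) ^ 2 = 1 := by
    have : ∀ j ∈ univ.filter (fun j => blk i = blk j),
        (sg (ρ (i, j)) / Real.sqrt p) ^ 2 = 1 / p := by
      intro j _
      rw [div_pow, sg_sq, Real.sq_sqrt hpr.le]
    rw [sum_congr rfl this, sum_const, hp i, nsmul_eq_mul]
    field_simp
  rw [h2, one_mul]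

theorem Rmat_zero (blk : I → B) (p : ℕ) (ρ : I × I → Bool) (y : I → ℝ) (i : I)
    (hy : ∀ j, blk i = blk j → y j = 0) : app (Rmat blk p ρ) y i = 0 := by
  unfold app Rmat
  apply sum_eq_zero
  intro j _
  split_ifs with h
  · rw [hy j h, mul_zero]
  · rw [zero_mul]

end blocks


section pipeline

variable {I K B : Type} [Fintype I] [DecidableEq I] [Nonempty I] [Fintype K] [DecidableEq K]
  [Fintype B] [DecidableEq B]

/-- a diagonal of signs -/
def flip (s : I → Bool) (x : I → ℝ) : I → ℝ := fun j => sg (s j) * x j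

theorem nsq_flip (s : I → Bool) (x : I → ℝ) : nsq (flip s x) = nsq x := by
  unfold nsq flip
  apply sum_congr rfl
  intro i _
  rw [mul_pow, sg_sq, one_mul]

/-- The output of the transform. -/
noncomputable def out (H U : I → I → ℝ) (blk : I → B) (p : ℕ) (bkt : I → K)
    (s₁ s₂ σ : I → Bool) (ρ : I × I → Bool) (x : I → ℝ) : K → ℝ :=
  app (Smat bkt σ) (app U (app (Rmat blk p ρ) (app H (flip s₂ (app U (flip s₁ x))))))

theorem final_numeric (e g zg zb nz : ℝ) (he : 0 < e) (he8 : e ≤ 1 / 8) (hg1 : g ≤ 1)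
    (hg : 1 - e ^ 2 / 2 ≤ g)
    (h1 : (1 - e) * ((1 - e) * g) ≤ zg) (h2 : zg ≤ (1 + e) * ((1 + e) * g))
    (h3 : zb ≤ e ^ 2) (h4 : (1 - e) * zg - (1 / e) * zb ≤ nz)
    (h5 : nz ≤ (1 + e) * zg + (1 + 1 / e) * zb) :
    (1 - 8 * e) ^ 2 ≤ nz ∧ nz ≤ (1 + 8 * e) ^ 2 := by
  have h6 : (1 / e) * zb ≤ e := by
    rw [one_div, inv_mul_le_iff₀ he]
    nlinarith
  constructor
  · have h7 : (1 - e) * ((1 - e) * ((1 - e) * (1 - e ^ 2 / 2))) ≤ (1 - e) * zg := by
      apply mul_le_mul_of_nonneg_left _ (by linarith)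
      refine le_trans ?_ h1
      apply mul_le_mul_of_nonneg_left _ (by linarith)
      apply mul_le_mul_of_nonneg_left hg (by linarith)
    nlinarith [mul_nonneg he.le he.le, mul_nonneg (mul_nonneg he.le he.le) he.le,
      mul_nonneg he.le (sub_nonneg.mpr he8), mul_nonneg (mul_nonneg he.le he.le) (sub_nonneg.mpr he8),
      pow_pos he 3, pow_pos he 4, pow_pos he 5]
  · have h7 : (1 + e) * zg ≤ (1 + e) * ((1 + e) * ((1 + e) * 1)) := by
      apply mul_le_mul_of_nonneg_left _ (by linarith)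
      refine h2.trans ?_
      apply mul_le_mul_of_nonneg_left _ (by linarith)
      apply mul_le_mul_of_nonneg_left hg1 (by linarith)
    have h8 : (1 + 1 / e) * zb = zb + (1 / e) * zb := by ring
    nlinarith [mul_nonneg he.le he.le, mul_nonneg (mul_nonneg he.le he.le) (sub_nonneg.mpr he8)]


theorem card_of_fibers {I K : Type} [Fintype I] [Fintype K] [DecidableEq K] (bkt : I → K) (β : ℕ)
    (hβ : ∀ κ, (univ.filter fun i => bkt i = κ).card = β) :
    Fintype.card I = Fintype.card K * β := by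
  have h := Finset.card_eq_sum_card_fiberwise (f := bkt) (s := (univ : Finset I))
    (t := (univ : Finset K)) (fun i _ => mem_coe.mpr (mem_univ _))
  rw [← Finset.card_univ, h, sum_congr rfl (fun κ _ => hβ κ), sum_const, Finset.card_univ,
    smul_eq_mul]

theorem card_blocks_le {I B : Type} [Fintype I] [Fintype B] [DecidableEq B] (blk : I → B) (p : ℕ)
    (hp : ∀ b, (univ.filter fun i => blk i = b).card = p) (bad : Finset B) :
    (univ.filter fun i => blk i ∈ bad).card = bad.card * p := by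
  have h := Finset.card_eq_sum_card_fiberwise (f := blk)
    (s := (univ.filter fun i => blk i ∈ bad)) (t := bad)
    (fun i hi => by simpa using hi)
  rw [h]
  have : ∀ b ∈ bad, (filter (fun i => blk i = b) (univ.filter fun i => blk i ∈ bad)).card = p := by
    intro b hb
    rw [← hp b]
    congr 1
    ext i
    simp only [mem_filter, mem_univ, true_and]
    constructor
    · rintro ⟨_, h⟩
      exact h
    · rintro rfl
      exact ⟨hb, rfl⟩
  rw [sum_congr rfl this, sum_const, smul_eq_mul]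

set_option maxHeartbeats 1000000 in
theorem inner_prob (U : I → I → ℝ)
    (hUrow : ∀ x : I → ℝ, ∑ i, (∑ j, U i j * x j) ^ 2 = ∑ j, x j ^ 2)
    (hUcol : ∀ x : I → ℝ, ∑ i, (∑ j, U j i * x j) ^ 2 = ∑ j, x j ^ 2)
    (L : ℝ) (hL : 1 ≤ L) (hU : Spread L U)
    (blk : I → B) (p : ℕ) (hp1 : 1 ≤ p) (hp : ∀ b, (univ.filter fun i => blk i = b).card = p)
    (bkt : I → K) (β : ℕ) (hβ1 : 1 ≤ β) (hβ : ∀ κ, (univ.filter fun i => bkt i = κ).card = β)
    (u ε N μ : ℝ) (hu : 1 ≤ u) (hε : 0 < ε) (hε1 : ε < 1) (hμ : 0 < μ)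
    (hk : 16384 * u ≤ ε ^ 2 * Fintype.card K)
    (hbad : (L * (N + β) / (Fintype.card K : ℝ) + 2 + 4 * L * u / (Fintype.card K : ℝ)) *
       (p * μ) ≤ ε ^ 2 / 64)
    (hN0 : 0 ≤ N)
    (y : I → ℝ) (hy : nsq y = 1) (bad : Finset B) (hb1 : (bad.card : ℝ) * p ≤ N)
    (hb2 : ∑ i ∈ univ.filter (fun i => blk i ∈ bad), y i ^ 2 ≤ μ)
    (hb3 : ∀ b, b ∉ bad → ∑ i ∈ univ.filter (fun i => blk i = b), y i ^ 2 ≤
      12 * (p : ℝ) / (Fintype.card I : ℝ)) :
    pr (fun ω : (I → Bool) × (I × I → Bool) =>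
      ¬ ((1 - ε) ^ 2 ≤ nsq (app (Smat bkt ω.1) (app U (app (Rmat blk p ω.2) y))) ∧
        nsq (app (Smat bkt ω.1) (app U (app (Rmat blk p ω.2) y))) ≤ (1 + ε) ^ 2)) ≤
      5 * Real.exp (-u) := by
  classical
  set m : ℝ := (Fintype.card I : ℝ) with hm
  set k : ℝ := (Fintype.card K : ℝ) with hkdef
  have hm0 : 0 < m := by
    rw [hm]
    exact_mod_cast Fintype.card_pos
  have hmk : m = k * β := by
    rw [hm, card_of_fibers bkt β hβ]
    push_cast
    rfl
  have hβ0 : (1 : ℝ) ≤ β := by exact_mod_cast hβ1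
  have hp0 : (1 : ℝ) ≤ p := by exact_mod_cast hp1
  have hk0 : 0 < k := by
    by_contra h
    push Not at h
    have : m ≤ 0 := by
      rw [hmk]
      nlinarith
    linarith
  have hkm : k ≤ m := by
    rw [hmk]
    nlinarith
  have hpi : ∀ i, (univ.filter fun j => blk i = blk j).card = p := by
    intro i
    rw [← hp (blk i)]
    congr 1
    ext j
    simp [eq_comm]
  have hcol : ∀ i, ∑ j, U j i ^ 2 = 1 := by
    intro i
    have := hUrow (fun j => if j = i then 1 else 0)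
    simpa using this
  -- decomposition
  set yb : I → ℝ := fun i => if blk i ∈ bad then y i else 0 with hyb
  set yg : I → ℝ := fun i => if blk i ∈ bad then 0 else y i with hyg
  have hsum : y = fun i => yg i + yb i := by
    funext i
    simp only [hyb, hyg]
    split_ifs <;> simp
  have hnsqyb : nsq yb = ∑ i ∈ univ.filter (fun i => blk i ∈ bad), y i ^ 2 := by
    unfold nsq
    rw [sum_filter]
    apply sum_congr rfl
    intro i _
    simp only [hyb]
    split_ifs <;> simp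
  have hnsq : nsq yg + nsq yb = 1 := by
    rw [← hy]
    unfold nsq
    rw [← sum_add_distrib]
    apply sum_congr rfl
    intro i _
    simp only [hyb, hyg]
    split_ifs <;> simp
  have hyb_le : nsq yb ≤ μ := by
    rw [hnsqyb]
    exact hb2
  have hyb0 : 0 ≤ nsq yb := nsq_nonneg yb
  -- the bad mass is tiny
  set F : ℝ := L * (N + β) / k + 2 + 4 * L * u / k with hF
  have hF2 : 2 ≤ F := by
    have h1 : 0 ≤ L * (N + β) / k := by positivity
    have h2 : 0 ≤ 4 * L * u / k := by positivity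
    rw [hF]
    linarith
  have hμsmall : μ ≤ ε ^ 2 / 128 := by
    have h1 : 2 * (1 * μ) ≤ F * (p * μ) := by
      apply mul_le_mul hF2 _ (by positivity) (by linarith)
      apply mul_le_mul_of_nonneg_right hp0 hμ.le
    linarith
  have hg1 : nsq yg ≤ 1 := by linarith
  have hg0 : 1 - ε ^ 2 / 128 ≤ nsq yg := by linarith
  have hε2 : ε ^ 2 ≤ 1 := by nlinarith
  have hg34 : 7 / 8 ≤ nsq yg := by linarith
  -- block masses of the good part
  set c : I → ℝ := fun i => (∑ j ∈ univ.filter (fun j => blk i = blk j), yg j ^ 2) / p with hc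
  have hc0 : ∀ i, 0 ≤ c i := by
    intro i
    simp only [hc]
    apply div_nonneg (sum_nonneg fun _ _ => sq_nonneg _) (by linarith)
  have hcγ : ∀ i, c i ≤ 12 / m := by
    intro i
    simp only [hc]
    rw [div_le_iff₀ (by linarith)]
    by_cases h : blk i ∈ bad
    · have : ∑ j ∈ univ.filter (fun j => blk i = blk j), yg j ^ 2 = 0 := by
        apply sum_eq_zero
        intro j hj
        simp only [mem_filter, mem_univ, true_and] at hj
        simp only [hyg]
        rw [← hj, if_pos h]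
        simp
      rw [this]
      positivity
    · have h1 := hb3 (blk i) h
      have h2 : ∑ j ∈ univ.filter (fun j => blk i = blk j), yg j ^ 2 =
          ∑ j ∈ univ.filter (fun j => blk j = blk i), y j ^ 2 := by
        have h3 : (univ.filter fun j => blk i = blk j) = univ.filter fun j => blk j = blk i := by
          ext j
          simp [eq_comm]
        rw [h3]
        apply sum_congr rfl
        intro j hj
        simp only [mem_filter, mem_univ, true_and] at hj
        simp only [hyg]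
        rw [hj, if_neg h]
      rw [h2]
      refine h1.trans (le_of_eq ?_)
      ring
  have hcsum : ∑ i, c i = nsq yg := by
    simp only [hc]
    rw [← sum_div, sum_blocks blk p hpi, mul_div_cancel_left₀ _ (by linarith : (p : ℝ) ≠ 0)]
    rfl
  -- the events
  set e : ℝ := ε / 8 with he
  have he0 : 0 < e := by rw [he]; linarith
  have he8 : e ≤ 1 / 8 := by rw [he]; linarith
  set τ : (I → Bool) → ℝ := fun σ => ∑ i, c i * ∑ κ, (∑ j, Smat bkt σ κ j * U j i) ^ 2 with hτ
  set E4 : (I → Bool) → Prop := fun σ => ¬ ((1 - e) * ∑ i, c i ≤ τ σ ∧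
    τ σ ≤ (1 + e) * ∑ i, c i) with hE4
  set zg : (I → Bool) → (I × I → Bool) → ℝ := fun σ ρ =>
    ∑ κ, (∑ l, Smat bkt σ κ l * ∑ i, U l i * ∑ j, Rmat blk p ρ i j * yg j) ^ 2 with hzg
  set E5 : (I → Bool) → (I × I → Bool) → Prop := fun σ ρ => ¬ ((1 - e) * τ σ ≤ zg σ ρ ∧
    zg σ ρ ≤ (1 + e) * τ σ) with hE5
  set v : (I × I → Bool) → I → ℝ := fun ρ => app (Rmat blk p ρ) yb with hv
  set zb : (I → Bool) → (I × I → Bool) → ℝ := fun σ ρ =>
    ∑ κ, (∑ i, Smat bkt σ κ i * ∑ j, U i j * v ρ j) ^ 2 with hzb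
  set E3 : (I → Bool) → (I × I → Bool) → Prop := fun σ ρ => F * (p * μ) < zb σ ρ with hE3
  have p4 : pr E4 ≤ 2 * Real.exp (-u) := by
    have h := good_trace U hcol (fun x => (hUcol x).le) bkt c (12 / m) e (by positivity) hc0 hcγ
      he0 (by linarith)
    refine h.trans ?_
    apply mul_le_mul_of_nonneg_left _ (by norm_num)
    apply Real.exp_le_exp.mpr
    apply neg_le_neg
    rw [hcsum]
    have h1 : e ^ 2 * nsq yg / (16 * (12 / m)) = ε ^ 2 * (nsq yg * m) / 12288 := by
      rw [he]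
      field_simp
      ring
    rw [h1, le_div_iff₀ (by norm_num)]
    have h2 : (7 / 8) * k ≤ nsq yg * m := by
      apply mul_le_mul hg34 hkm hk0.le (by linarith)
    have h3 : ε ^ 2 * ((7 / 8) * k) ≤ ε ^ 2 * (nsq yg * m) :=
      mul_le_mul_of_nonneg_left h2 (by positivity)
    linarith
  have p5 : ∀ σ, ¬ E4 σ → pr (E5 σ) ≤ 2 * Real.exp (-u) := by
    intro σ hσ
    simp only [hE4, not_not] at hσ
    have h := good_chaos U (fun x => (hUrow x).le) blk p hp1 bkt β hβ1 hβ σ yg (12 / m) e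
      (by positivity) hcγ he0 (by linarith) (τ σ) rfl
    refine h.trans ?_
    apply mul_le_mul_of_nonneg_left _ (by norm_num)
    apply Real.exp_le_exp.mpr
    apply neg_le_neg
    have h1 : e ^ 2 * τ σ / (16 * (12 / m * β)) = ε ^ 2 * (τ σ * k) / 12288 := by
      rw [he, hmk]
      field_simp
      ring
    rw [h1, le_div_iff₀ (by norm_num)]
    have h2 : 3 / 4 ≤ τ σ := by
      have h0 := hσ.1
      rw [hcsum] at h0
      have h00 : (7 / 8 : ℝ) * (7 / 8) ≤ (1 - e) * nsq yg :=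
        mul_le_mul (by linarith) hg34 (by norm_num) (by linarith)
      linarith
    have h3 : (3 / 4) * k ≤ τ σ * k := mul_le_mul_of_nonneg_right h2 hk0.le
    have h4 : ε ^ 2 * ((3 / 4) * k) ≤ ε ^ 2 * (τ σ * k) :=
      mul_le_mul_of_nonneg_left h3 (by positivity)
    linarith
  have p3 : ∀ ρ, pr (fun σ => E3 σ ρ) ≤ Real.exp (-u) := by
    intro ρ
    have hT : (((univ.filter fun i => blk i ∈ bad).card : ℕ) : ℝ) ≤ N := by
      rw [card_blocks_le blk p hp]
      push_cast
      exact hb1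
    exact bad_part U L hL hU (fun x => (hUrow x).le) bkt β hβ1 hβ (v ρ)
      (univ.filter fun i => blk i ∈ bad) N (p * μ) u hT
      (by
        intro i hi
        simp only [mem_filter, mem_univ, true_and] at hi
        simp only [hv]
        apply Rmat_zero
        intro j hj
        simp only [hyb]
        rw [← hj, if_neg hi])
      (by
        have := Rmat_nsq_le blk p hp1 hpi ρ yb
        refine this.trans ?_
        apply mul_le_mul_of_nonneg_left hyb_le (by linarith))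
      (by positivity) (by linarith)
  have hexp : 0 ≤ Real.exp (-u) := (Real.exp_pos _).le
  have p45 : pr (fun ω : (I → Bool) × (I × I → Bool) => E4 ω.1 ∨ E5 ω.1 ω.2) ≤
      2 * Real.exp (-u) + 2 * Real.exp (-u) :=
    pr_prod_or_le E4 E5 _ _ (by positivity) p4 p5
  have p3' : pr (fun ω : (I → Bool) × (I × I → Bool) => E3 ω.1 ω.2) ≤ Real.exp (-u) :=
    pr_prod_le_left E3 _ hexp p3
  have pall : pr (fun ω : (I → Bool) × (I × I → Bool) =>
      E3 ω.1 ω.2 ∨ (E4 ω.1 ∨ E5 ω.1 ω.2)) ≤ 5 * Real.exp (-u) := by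
    refine (pr_or_le _ _).trans ?_
    linarith
  refine (pr_mono ?_).trans pall
  rintro ⟨σ, ρ⟩ hneg
  by_contra hcon
  push Not at hcon
  obtain ⟨h3, h4, h5⟩ := hcon
  apply hneg
  simp only [hE3, not_lt] at h3
  simp only
  have hz : app (Smat bkt σ) (app U (app (Rmat blk p ρ) y)) =
      fun κ => app (Smat bkt σ) (app U (app (Rmat blk p ρ) yg)) κ +
        app (Smat bkt σ) (app U (app (Rmat blk p ρ) yb)) κ := by
    have h1 : app (Rmat blk p ρ) y =
        fun i => app (Rmat blk p ρ) yg i + app (Rmat blk p ρ) yb i := by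
      funext i
      conv_lhs => rw [hsum]
      exact app_add _ _ _ _
    have h2 : app U (app (Rmat blk p ρ) y) =
        fun i => app U (app (Rmat blk p ρ) yg) i + app U (app (Rmat blk p ρ) yb) i := by
      rw [h1]
      funext i
      exact app_add _ _ _ _
    rw [h2]
    funext κ
    exact app_add _ _ _ _
  rw [hz]
  have h6 := nsq_add_lower (app (Smat bkt σ) (app U (app (Rmat blk p ρ) yg)))
    (app (Smat bkt σ) (app U (app (Rmat blk p ρ) yb))) e he0
  have h7 := nsq_add_upper (app (Smat bkt σ) (app U (app (Rmat blk p ρ) yg)))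
    (app (Smat bkt σ) (app U (app (Rmat blk p ρ) yb))) e he0
  have hε8 : ε = 8 * e := by rw [he]; ring
  rw [hcsum] at h4
  have key := final_numeric e (nsq yg) (nsq (app (Smat bkt σ) (app U (app (Rmat blk p ρ) yg))))
    (nsq (app (Smat bkt σ) (app U (app (Rmat blk p ρ) yb)))) _ he0 he8 hg1
    (by rw [hε8] at hg0; linarith)
    (by
      refine le_trans ?_ h5.1
      exact mul_le_mul_of_nonneg_left h4.1 (by linarith))
    (by
      refine le_trans h5.2 ?_
      exact mul_le_mul_of_nonneg_left h4.2 (by linarith))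
    (by
      have : e ^ 2 = ε ^ 2 / 64 := by rw [he]; ring
      rw [this]
      exact h3.trans hbad)
    h6 h7
  rw [← hε8] at key
  exact key

set_option maxHeartbeats 1000000 in
theorem pipeline (H U : I → I → ℝ)
    (hH1 : ∀ i j, H i j ^ 2 ≤ 1 / (Fintype.card I : ℝ))
    (hH2 : ∀ x : I → ℝ, ∑ i, (∑ j, H i j * x j) ^ 2 = ∑ j, x j ^ 2)
    (hUrow : ∀ x : I → ℝ, ∑ i, (∑ j, U i j * x j) ^ 2 = ∑ j, x j ^ 2)
    (hUcol : ∀ x : I → ℝ, ∑ i, (∑ j, U j i * x j) ^ 2 = ∑ j, x j ^ 2)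
    (L : ℝ) (hL : 1 ≤ L) (hU : Spread L U)
    (blk : I → B) (p : ℕ) (hp1 : 1 ≤ p) (hp : ∀ b, (univ.filter fun i => blk i = b).card = p)
    (bkt : I → K) (β : ℕ) (hβ1 : 1 ≤ β) (hβ : ∀ κ, (univ.filter fun i => bkt i = κ).card = β)
    (u ε L' : ℝ) (hu : 1 ≤ u) (hε : 0 < ε) (hε1 : ε < 1)
    (hL'1 : 1 ≤ L') (hL' : 20 * L * Real.log (2 * Fintype.card I) ≤ L')
    (hpL : 24 * L' * Real.log (2 * Fintype.card I) ≤ p)
    (hk : 16384 * u ≤ ε ^ 2 * Fintype.card K)
    (hbad : (L * (5 * L' * u + β) / (Fintype.card K : ℝ) + 2 +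
      4 * L * u / (Fintype.card K : ℝ)) * (p * (55 * L' * u / (Fintype.card I : ℝ))) ≤ ε ^ 2 / 64)
    (x : I → ℝ) (hx : nsq x = 1) :
    pr (fun ω : (I → Bool) × (I → Bool) × (I → Bool) × (I × I → Bool) =>
      ¬ ((1 - ε) ^ 2 ≤ nsq (out H U blk p bkt ω.1 ω.2.1 ω.2.2.1 ω.2.2.2 x) ∧
        nsq (out H U blk p bkt ω.1 ω.2.1 ω.2.2.1 ω.2.2.2 x) ≤ (1 + ε) ^ 2)) ≤
      7 * Real.exp (-u) := by
  classical
  set m : ℝ := (Fintype.card I : ℝ) with hm
  have hm0 : 0 < m := by
    rw [hm]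
    exact_mod_cast Fintype.card_pos
  have hexp : 0 ≤ Real.exp (-u) := (Real.exp_pos _).le
  have hBI : Fintype.card B ≤ Fintype.card I := by
    rw [card_of_fibers blk p hp]
    exact Nat.le_mul_of_pos_right _ hp1
  set E1 : (I → Bool) → Prop := fun s => ∃ Q : Finset I,
      20 * L * Real.log (2 * m) * (Q.card + u) / m <
        ∑ i ∈ Q, (∑ j, U i j * (sg (s j) * x j)) ^ 2 with hE1
  have p1 : pr E1 ≤ Real.exp (-u) :=
    step1 U L (by linarith) hU x (by unfold nsq at hx; rw [hx]) u hu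
  set w : (I → Bool) → I → ℝ := fun s => app U (flip s x) with hw
  set y : (I → Bool) → (I → Bool) → I → ℝ := fun s₁ s₂ => app H (flip s₂ (w s₁)) with hy
  have hw1 : ∀ s, nsq (w s) = 1 := by
    intro s
    have : nsq (w s) = nsq (flip s x) := hUrow (flip s x)
    rw [this, nsq_flip, hx]
  have hy1 : ∀ s₁ s₂, nsq (y s₁ s₂) = 1 := by
    intro s₁ s₂
    have : nsq (y s₁ s₂) = nsq (flip s₂ (w s₁)) := hH2 (flip s₂ (w s₁))
    rw [this, nsq_flip, hw1]
  set E2 : (I → Bool) → (I → Bool) → Prop := fun s₁ s₂ => ¬ (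
        ((badSet blk p (y s₁ s₂)).card : ℝ) * p ≤ 5 * L' * u ∧
        ∑ i ∈ univ.filter (fun i => blk i ∈ badSet blk p (y s₁ s₂)), (y s₁ s₂) i ^ 2 ≤
          55 * L' * u / m) with hE2
  have p2 : ∀ s₁, ¬ E1 s₁ → pr (E2 s₁) ≤ Real.exp (-u) := by
    intro s₁ hs
    simp only [hE1, not_exists, not_lt] at hs
    exact step2 H hH1 (fun x => (hH2 x).le) (w s₁) (by have := hw1 s₁; unfold nsq at this; rw [this])
      L' u hL'1 hu
      (by
        intro Q
        refine (hs Q).trans ?_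
        have : 20 * L * Real.log (2 * m) * (Q.card + u) / m ≤ L' * (Q.card + u) / m := by
          apply div_le_div_of_nonneg_right _ hm0.le
          apply mul_le_mul_of_nonneg_right hL'
          have : (0 : ℝ) ≤ Q.card := Nat.cast_nonneg _
          linarith
        exact this)
      blk p (fun b => (hp b).le) hBI hpL
  set E3 : (I → Bool) → (I → Bool) → (I → Bool) × (I × I → Bool) → Prop := fun s₁ s₂ ω =>
      ¬ ((1 - ε) ^ 2 ≤ nsq (app (Smat bkt ω.1) (app U (app (Rmat blk p ω.2) (y s₁ s₂)))) ∧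
        nsq (app (Smat bkt ω.1) (app U (app (Rmat blk p ω.2) (y s₁ s₂)))) ≤ (1 + ε) ^ 2) with hE3
  have p3 : ∀ s₁ s₂, ¬ E2 s₁ s₂ → pr (E3 s₁ s₂) ≤ 5 * Real.exp (-u) := by
    intro s₁ s₂ hs
    simp only [hE2, not_not] at hs
    apply inner_prob U hUrow hUcol L hL hU blk p hp1 hp bkt β hβ1 hβ u ε (5 * L' * u)
      (55 * L' * u / m) hu hε hε1 (by positivity) hk hbad (by positivity) (y s₁ s₂) (hy1 s₁ s₂)
      (badSet blk p (y s₁ s₂)) hs.1 hs.2
    intro b hb
    rw [mem_badSet, not_lt] at hb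
    exact hb
  have p23 : ∀ s₁, ¬ E1 s₁ → pr (fun ω : (I → Bool) × (I → Bool) × (I × I → Bool) =>
      E2 s₁ ω.1 ∨ E3 s₁ ω.1 ω.2) ≤ 6 * Real.exp (-u) := by
    intro s₁ hs
    refine (pr_prod_or_le (E2 s₁) (E3 s₁) _ _ (by positivity) (p2 s₁ hs) (p3 s₁)).trans ?_
    linarith
  have pall := pr_prod_or_le E1 (fun s₁ (ω : (I → Bool) × (I → Bool) × (I × I → Bool)) =>
      E2 s₁ ω.1 ∨ E3 s₁ ω.1 ω.2) _ _ (by positivity) p1 p23
  refine (pr_mono ?_).trans (pall.trans (by linarith))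
  rintro ⟨s₁, s₂, σ, ρ⟩ hneg
  exact Or.inr (Or.inr hneg)

end pipeline

end Pool.Agent.FJL
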